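import Pool.Agent.helper14.AU.Defs

/-!
# Definitions: area universality for oriented triples, all areas positive

The class `AER` (`∀∃ℝ`), the problem `UETR` and the code `code` of a list of triples are those of
`Pool.Agent.helper14.AU.Defs`.
-/

set_option autoImplicit false

namespace Pool.Agent.helper25.OAU

open N68a2faeb N793a5b8e Pool.Agent.helper14.AU

/-- The signed area of the triangle with the vertices `a`, `b`, `c` in the plane; it is positive if
`a`, `b`, `c` are in counterclockwise order. -/
noncomputable def sarea (a b c : ℝ × ℝ) : ℝ :=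
  ((b.1 - a.1) * (c.2 - a.2) - (c.1 - a.1) * (b.2 - a.2)) / 2

/-- The vertices of a triple. -/
def verts (t : ℕ × ℕ × ℕ) : List ℕ := [t.1, t.2.1, t.2.2]

/-- `T` lists, without repetition, oriented triples `(i, j, k)` of three different vertices (natural
numbers), such that different triples have different sets of vertices. -/
structure IsOSystem (T : List (ℕ × ℕ × ℕ)) : Prop where
  ne : ∀ t ∈ T, t.1 ≠ t.2.1 ∧ t.2.1 ≠ t.2.2 ∧ t.1 ≠ t.2.2
  nodup : T.Nodup
  uniq : ∀ s ∈ T, ∀ t ∈ T, (∀ i ∈ verts s, i ∈ verts t) → s = t

/-- `T` is area-universal: for every assignment `A` of positive areas to the triples in `T` there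
are points `p i` in the plane such that for every triple `(i, j, k)` in `T` the triangle with the
vertices `p i`, `p j`, `p k` (in counterclockwise order) has the area `A (i, j, k)`. -/
def OAreaUniversal (T : List (ℕ × ℕ × ℕ)) : Prop :=
  ∀ A : ℕ × ℕ × ℕ → ℝ, (∀ t ∈ T, 0 < A t) →
    ∃ p : ℕ → ℝ × ℝ, ∀ t ∈ T, sarea (p t.1) (p t.2.1) (p t.2.2) = A t

open Classical in
/-- **AREA UNIVERSALITY FOR ORIENTED TRIPLES**: the words that code a set of oriented triples that
is area-universal. -/
noncomputable def OTAU : DecisionProblem := fun w =>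
  decide (∃ T, code T = w ∧ IsOSystem T ∧ OAreaUniversal T)

end Pool.Agent.helper25.OAU
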