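import Pool.Agent.helper25.OAU.Asm
import Pool.Agent.helper14.AUT.PS
import Pool.Agent.helper12.AUT.FC
import Pool.Agent.helper91.AU.FS
import Pool.Agent.helper12.AUT.E1
import Pool.Agent.helper52.AUT.PI
import Pool.Agent.helper72.AUT.PU
import Pool.Agent.helper19.AU.FW
import Pool.Agent.helper14.AUT.IO14
import Pool.Agent.helper42.OAU.RS
import Pool.Agent.helper72.OAU.CR
import Pool.Agent.helper8.OAU.SR
import Pool.Agent.helper72.OAU.OT0
import Pool.Agent.helper9.OAU.OT1
import Pool.Agent.helper72.OAU.OT2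
import Pool.Agent.helper72.OAU.OPC
import Pool.Agent.helper45.OAU.OPD
import Pool.Agent.helper40.OAU.OPW
import Pool.Agent.helper31.OAU.OMEM

/-!
# `OTAU` is complete for `∀∃ℝ`
-/

set_option autoImplicit false

namespace Pool.Agent.helper25.OAU

open N68a2faeb N793a5b8e Pool.Agent.helper14.AU

theorem main : IsCompleteFor AER OTAU :=
  main_of' OT0 (OT1 RS SR) (OT2 RS CR) IO14 PS OPC FW (FS E1) (FC E1) (OPW (OPD PU (PI PU))) OMEM

end Pool.Agent.helper25.OAU
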