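import Pool.Agent.helper25.OAU.Spec
import Pool.Agent.helper14.AU.Asm

/-!
# Assembly: `OTAU` is complete for `∀∃ℝ`
-/

set_option autoImplicit false

namespace Pool.Agent.helper25.OAU

open N68a2faeb N793a5b8e
open Pool.Agent.helper56.SGE hiding Pt
open Pool.Agent.helper56.SGE.QSys
open Pool.Agent.helper98.Tsei Pool.Agent.H54.PT
open Pool.Agent.helper14.AU

theorem otau_code (T : List (ℕ × ℕ × ℕ)) :
    OTAU (code T) = true ↔ IsOSystem T ∧ OAreaUniversal T := by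
  simp only [OTAU, decide_eq_true_eq]
  constructor
  · rintro ⟨T', h, h1, h2⟩
    rw [code_inj T' T h] at h1 h2
    exact ⟨h1, h2⟩
  · rintro ⟨h1, h2⟩
    exact ⟨T, rfl, h1, h2⟩

theorem red_correct' (hOT0 : OT0_stmt) (hOT1 : OT1_stmt) (hOT2 : OT2_stmt) (hIO : IO_stmt)
    (hPS : PS_stmt) (hOPC : OPC_stmt) (hFW : FW_stmt) (hFS : FS_stmt) (hFC : FC_stmt)
    (w : List Bool) : UETR w = true ↔ OTAU (code (sysW' w)) = true := by
  obtain ⟨hwf, hM⟩ := hFW w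
  have hok := hIO (sysU w) (MU w) hwf hM
  rw [otau_code]
  constructor
  · intro h
    refine ⟨hOT0 _ _ _ hok, hOT2 _ _ _ hok fun α β hαβ => ?_⟩
    have hαβ' : ∀ g, 0 ≤ α g ∧ 0 ≤ β g := fun g => ⟨(hαβ g).1.le, (hαβ g).2.le⟩
    apply hOPC (sysU w) (MU w) hwf hM α β hαβ'
    obtain ⟨K, hK⟩ := hFC w h (fun r => α (23 + 13 * r)) (fun r => β (23 + 13 * r))
      (fun r => hαβ' _)
    exact ⟨K, fun κ h1 h2 => hK κ h1 h2⟩
  · rintro ⟨-, h⟩
    apply hFS w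
    intro α β hαβ
    obtain ⟨P, hP⟩ := hOT1 _ _ _ hok h (fun g => α ((g - 23) / 13)) (fun g => β ((g - 23) / 13))
      (fun g => hαβ _)
    obtain ⟨z, κ, h1, h2, h3⟩ := hPS (sysU w) (MU w) hwf hM _ _ P hP
    refine ⟨z, κ, h1, h2, fun r hr => ?_⟩
    have := h3 r hr
    have e : (23 + 13 * r - 23) / 13 = r := by omega
    rw [e] at this
    exact this

theorem main_of' (hOT0 : OT0_stmt) (hOT1 : OT1_stmt) (hOT2 : OT2_stmt) (hIO : IO_stmt)
    (hPS : PS_stmt) (hOPC : OPC_stmt) (hFW : FW_stmt) (hFS : FS_stmt) (hFC : FC_stmt)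
    (hOPW : OPW_stmt) (hOMEM : OMEM_stmt) : IsCompleteFor AER OTAU := by
  refine ⟨hOMEM, fun L hL => ?_⟩
  obtain ⟨f, hf, hf'⟩ := hL
  refine ⟨_, Pool.Agent.helper81.PolyComp.isPolyTime_comp hf hOPW, fun x => ?_⟩
  rw [hf', Bool.eq_iff_iff]
  exact red_correct' hOT0 hOT1 hOT2 hIO hPS hOPC hFW hFS hFC (f x)

end Pool.Agent.helper25.OAU
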