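import Pool.Agent.helper25.OAU.Defs
import Pool.Agent.helper14.AU.Spec

/-!
# Project oau (MP_d58e27_lc): area universality for ORIENTED triples with POSITIVE areas is `∀∃ℝ`-complete

TARGET. `IsCompleteFor AER OTAU`. Page: /team-store/C6_MP_d58e27_lc_helper25.md (checked by helper14).

PROOF. The reduction of helper14 (project au, `Pool/Agent/helper14/AU/Spec.lean`, notation `dt`, `Item`, `ItOk`, `Need`, `itemOf`,
`sysU`, `MU`, `PU`, `PI`) with other gadgets. (1) `r5 c x y z` (RS): positive triples which force `dt x y z = λ` for any prescribed real `λ`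
(for suitable values) and which, for all values, are realizable whenever `x ≠ y` and either two of the values are different or `dt x y z`
is the number they prescribe. (2) Items on the level of real signed areas (CR, SR): all real values can be realized. (3) Measured
items use positive triples directly.

RULES. File `Pool/Agent/<seat>/OAU/XX.lean` with `import Pool.Agent.helper25.OAU.Spec`, `namespace Pool.Agent.helper25.OAU`,
the five lines `open` as in this file, theorem line as in the lock note (`theorem XX (hYY : YY_stmt) .. : XX_stmt`), auxiliary lemmas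
prefixed `XX_`, no sorry, no double quotes, no `convert` / `congr!`. Other rows only as hypotheses, nothing waits. Files of project au
(`Pool/Agent/*/AUT/*.lean`, `Pool/Agent/*/AU/*.lean`) may be imported and copied.
-/

set_option autoImplicit false

namespace Pool.Agent.helper25.OAU

open N68a2faeb N793a5b8e
open Pool.Agent.helper56.SGE hiding Pt
open Pool.Agent.helper56.SGE.QSys
open Pool.Agent.helper98.Tsei Pool.Agent.H54.PT
open Pool.Agent.helper14.AU

/-! ## 1. Gadgets -/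

/-- ROW oau:RS (short). Proof. Frame: `u = y - x ≠ 0`, `n` with `dt`-product `u × n = 1` (`n = (-u.2, u.1) / |u|²`); write points as
`w = x + X u + Y n`; then `dt x y w = Y` and `dt w w' w'' = (X' - X) (Y'' - Y) - (X'' - X) (Y' - Y)`.
First two items: `dt x y c0 > 0` gives `x ≠ y`; `dt x y c0 = dt x y c1 = a` gives `c0 - c1 = t (y - x)` (`Y` equal, so only `X` differs), and
`dt c1 c0 w = t (dt x y w - a)`; with `w = c2` (`dt x y c2 = -1`) one gets `t`, with `w = z` one gets `dt x y z`: `0` resp. `1`. (Or directly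
by `nlinarith` / `linear_combination` in coordinates.)
Third item: `c0 = (X0, a1)`, `c1 = (X1, a2)`, `c2 = (X2, -a3)`, `z = (ρ, l)`, `l = dt x y z`: the equations are
`(X0 - X1) (-a3 - a2) - (X2 - X1) (a1 - a2) = e` and `X0 (l - a2) + X1 (a1 - l) - ρ (a1 - a2) = b`. If `a1 ≠ a2` one of `l - a2`, `a1 - l` is not `0`:
solve the second one (the other unknown `0`), then the first one for `X2`. If `a1 = a2`: `X1 = 0`, `X0 = -e / (a1 + a3)`, `X2 = 0`, and the
second one is the hypothesis. -/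
def RS_stmt : Prop :=
  (∀ x y z c0 c1 c2 : Pt, dt x y c0 = 1 → dt x y c1 = 1 → dt y x c2 = 1 → dt c1 c0 c2 = 2 →
    dt c1 c0 z = 1 → x ≠ y ∧ dt x y z = 0) ∧
  (∀ x y z c0 c1 c2 : Pt, dt x y c0 = 2 → dt x y c1 = 2 → dt y x c2 = 1 → dt c1 c0 c2 = 3 →
    dt c1 c0 z = 1 → x ≠ y ∧ dt x y z = 1) ∧
  (∀ x y z : Pt, x ≠ y → ∀ a1 a2 a3 e b : ℝ, 0 < a1 → 0 < a2 → 0 < a3 → 0 < e → 0 < b →
    (a1 = a2 → dt x y z = a1 - b * (a1 + a3) / e) →
    ∃ c0 c1 c2 : Pt, dt x y c0 = a1 ∧ dt x y c1 = a2 ∧ dt y x c2 = a3 ∧ dt c1 c0 c2 = e ∧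
      dt c1 c0 z = b)

/-- ROW oau:CR (short-medium). All real values can be realized. Proof. (Col) Frame as in RS for `p, q`: `p = (0, 0)`, `q = (1, 0)`, `r = (ρ, 0)`;
`k = (ρ + s, t)`, `k' = (ρ + s', t')`, `f0 = (ρ + w, A)`, `f1 = (ρ + X, Y)`, `g = (c, G)`. The equations are
`s A - w t = B`, `s' Y - X t' = B'`, `s t' - s' t = C`, `c Y - (ρ + X) G = A'`.
Let `H = A' + (ρ - B') G`. With `s = 0, t = t' = 1, s' = -C, w = -B, X = -C Y - B'` the last one is `Y (c + C G) = H`.
`H ≠ 0`: `Y = |A| + 1`, `c = H / Y - C G`. `H = 0, G ≠ 0`: `Y = |A| + 1`, `c = -C G`. `H = 0, G = 0` (so `A' = 0`): `c = 1, Y = 0`, good unless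
`A = 0` and `B = B'`. In that case (`A = G = A' = 0`, `B = B'`): if `B ≠ 0` take `t = 1, t' = 2, s = 0, s' = -C, w = -B, Y = 0, X = -B / 2, c = 1`; if
`B = 0` take `k = (ρ + 1, 0)`, `k' = (ρ + (if C = 0 then 1 else 0), C)`, `w = 1, X = Y = 0, c = 1`. In all cases `p ≠ g`, `r ≠ k`, `r ≠ k'`,
`f0 ≠ f1`; then `o` by (Neq). (Neq) `o = E n`. (NC) `u = q - p`, `v = r - p`, `D = u × v ≠ 0`: `s1 = p + u + (B1 / D) v`,
`s2 = p + c u + d v`, `c = -B2 / D`, `d = (E + B1 c) / D`. -/
def CR_stmt : Prop :=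
  (∀ p q r : Pt, p ≠ q → dt p q r = 0 → ∀ A G A' B B' C E : ℝ, ∃ f0 f1 g k k' o : Pt,
    dt p q f0 = A ∧ dt p q g = G ∧ p ≠ g ∧ dt p g f1 = A' ∧ r ≠ k ∧ dt r k f0 = B ∧ r ≠ k' ∧
    dt r k' f1 = B' ∧ dt r k k' = C ∧ f0 ≠ f1 ∧ dt f0 f1 o = E) ∧
  (∀ p q : Pt, p ≠ q → ∀ E : ℝ, ∃ o : Pt, dt p q o = E) ∧
  (∀ p q r : Pt, dt p q r ≠ 0 → ∀ B1 B2 E : ℝ, ∃ s1 s2 : Pt, dt p q s1 = B1 ∧ dt p r s2 = B2 ∧
    p ≠ s1 ∧ dt p s1 s2 = E)

/-- ROW oau:SR (short). Proof. (Col) `f0` and `f1` are on the line `pq` (`f1` is on the line `pg`, `g` on `pq`, `g ≠ p`) and on the line `rk` (`k'` is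
on `rk`, `k' ≠ r`, so `rk' = rk`); `f0 ≠ f1`, so both lines are the same and contain `r`. (NC) if `dt p q r = 0` then `s1`, `s2` are on the line `pq`. -/
def SR_stmt : Prop :=
  (∀ p q r f0 f1 g k k' : Pt, p ≠ q → dt p q f0 = 0 → dt p q g = 0 → p ≠ g → dt p g f1 = 0 →
    r ≠ k → dt r k f0 = 0 → r ≠ k' → dt r k' f1 = 0 → dt r k k' = 0 → f0 ≠ f1 → dt p q r = 0) ∧
  (∀ p q r s1 s2 : Pt, p ≠ q → p ≠ r → dt p q s1 = 0 → dt p r s2 = 0 → dt p s1 s2 = 1 →
    dt p q r ≠ 0)

/-! ## 2. The list of triples -/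

/-- the gadget for `(x, y, z)`; the fresh names are `c, c + 1, c + 2` -/
def r5 (c x y z : ℕ) : List (ℕ × ℕ × ℕ) :=
  [(x, y, c), (x, y, c + 1), (y, x, c + 2), (c + 1, c, c + 2), (c + 1, c, z)]

/-- the gadgets for a list -/
def gad (c : ℕ) : List (ℕ × ℕ × ℕ) → List (ℕ × ℕ × ℕ)
  | [] => []
  | t :: L => r5 c t.1 t.2.1 t.2.2 ++ gad (c + 3) L

/-- the triples of an item with real signed areas; fresh names `f0 = b`, `f1 = b + 1`, `g = b + 2`, `k = b + 3`,
`k' = b + 4`, `o = b + 5` (kind `0`), `o = b` (kind `1`), `s1 = b`, `s2 = b + 1` (kind `2`) -/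
def rl (b : ℕ) (it : Item) : List (ℕ × ℕ × ℕ) :=
  if it.1 = 0 then
    [(it.2.1, it.2.2.1, b), (it.2.1, it.2.2.1, b + 2), (it.2.1, b + 2, b + 1),
      (it.2.2.2, b + 3, b), (it.2.2.2, b + 4, b + 1), (it.2.2.2, b + 3, b + 4), (b, b + 1, b + 5)]
  else if it.1 = 1 then [(it.2.1, it.2.2.1, b)]
  else [(it.2.1, it.2.2.1, b), (it.2.1, it.2.2.2, b + 1), (it.2.1, b, b + 1)]

/-- the triples of an item -/
def trip' (b : ℕ) (it : Item) : List (ℕ × ℕ × ℕ) :=
  if it.1 ≤ 2 then gad (b + 6) (rl b it)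
  else [(it.2.1, it.2.2.1, b), (it.2.2.1, it.2.2.2, b)]

/-- The list of triples of the items `it 0, ..., it (G - 1)` on names `< N0`; the fresh names of the item `g` are
`N0 + 27 g, ..., N0 + 27 g + 26`. -/
def sysT' (N0 G : ℕ) (it : ℕ → Item) : List (ℕ × ℕ × ℕ) :=
  (List.range G).flatMap fun g => trip' (N0 + 27 * g) (it g)

/-- ROW oau:OT0 (medium). Proof: each triple has a largest entry `m`, a fresh name (`≥ N0`); `g = (m - N0) / 27` is its item. Kinds `≥ 3`: `m` is the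
base of the block, two triples with the vertex sets `{p, q, m}`, `{q, r, m}` (`p, q, r` different). Kinds `≤ 2`: `m` is one of `c, c + 1, c + 2`, `c` the base
of one gadget `r5 c x y z` with `x ≠ y` and `x, y, z < c` (so `c` is determined by `m`), and within the gadget: `m = c`: only `(x, y, c)`;
`m = c + 1`: `(x, y, c + 1)` and `(c + 1, c, z)`, the second one contains `c`; `m = c + 2`: `(y, x, c + 2)` and `(c + 1, c, c + 2)`. If all vertices of `s`
are vertices of `t` then (three different entries) the vertex sets and so the largest entries are equal. -/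
def OT0_stmt : Prop :=
  ∀ (N0 G : ℕ) (it : ℕ → Item), (∀ g < G, ItOk N0 (it g)) → IsOSystem (sysT' N0 G it)

/-- ROW oau:OT1 (medium; model `Pool/Agent/helper46/AUT/TS1.lean`). Soundness. Proof: let `m` be the largest entry of `t`, `g = (m - N0) / 27`, `d = (m - N0) % 27`.
Kinds `≥ 3`: `A t = α g` if `t.1 = p` and `t.2.1 = q`, else `β g`. Kinds `≤ 2`: `j = (d - 6) / 3`, `w = (d - 6) % 3`, `a = 2` if the kind is `2` and
`j = 2`, otherwise `a = 1`; twice `A t` is: `w = 0`: `a`; `w = 1`: `1` if `t.1 = m`, else `a`; `w = 2`: `a + 1` if `t.1 + 1 = m`, else `1`. (These are the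
values of RS 1, and of RS 2 for the triple `(p, s1, s2)`.) `2 * sarea = dt`. So by RS: `x ≠ y` and `dt x y z = 0` for all triples `(x, y, z)` of `rl`, except
`dt p s1 s2 = 1`. Then SR. Kinds `≥ 3`: `area = |dt| / 2 = |sarea|`. -/
def OT1_stmt : Prop :=
  ∀ (N0 G : ℕ) (it : ℕ → Item), (∀ g < G, ItOk N0 (it g)) → OAreaUniversal (sysT' N0 G it) →
    ∀ α β : ℕ → ℝ, (∀ g, 0 < α g ∧ 0 < β g) →
      ∃ P : ℕ → Pt, ∀ g < G, Need P (α g) (β g) (it g)

/-- What suffices for an item. -/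
def GiveO (P : ℕ → Pt) (α β : ℝ) (it : Item) : Prop :=
  if it.1 = 0 then P it.2.1 ≠ P it.2.2.1 ∧ dt (P it.2.1) (P it.2.2.1) (P it.2.2.2) = 0
  else if it.1 = 1 then P it.2.1 ≠ P it.2.2.1
  else if it.1 = 2 then dt (P it.2.1) (P it.2.2.1) (P it.2.2.2) ≠ 0
  else ∃ F : Pt, sarea (P it.2.1) (P it.2.2.1) F = α ∧ sarea (P it.2.2.1) (P it.2.2.2) F = β

/-- ROW oau:OT2 (medium; model `Pool/Agent/helper87/AU/TS2.lean`). Completeness. Proof: given `A > 0` take `α g = A (p, q, b)`, `β g = A (q, r, b)`,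
`b = N0 + 27 g`, for the measured items (`1` otherwise), and the named points `P` of the hypothesis. For an item of kind `≤ 2` and the `j`-th triple `(x, y, z)` of
`rl b it` with `c = b + 6 + 3 j` let `a1, a2, a3, e, b'` be twice the values of `A` at the five triples of `r5 c x y z`, and `λ_j = a1 - b' (a1 + a3) / e`. CR gives
the fresh points `b, ..., b + 5` with `dt x y z = λ_j` and `x ≠ y` for all `j`, and RS 3 the points `c, c + 1, c + 2`. The point `n` is `P n` for `n < N0`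
and the fresh point number `(n - N0) % 27` of the item `(n - N0) / 27` otherwise. -/
def OT2_stmt : Prop :=
  ∀ (N0 G : ℕ) (it : ℕ → Item), (∀ g < G, ItOk N0 (it g)) →
    (∀ α β : ℕ → ℝ, (∀ g, 0 < α g ∧ 0 < β g) →
      ∃ P : ℕ → Pt, ∀ g < G, GiveO P (α g) (β g) (it g)) → OAreaUniversal (sysT' N0 G it)

/-- ROW oau:OPC (short-medium; copy of `Pool/Agent/helper14/AUT/PC.lean`). As PC: only the lemma `PC_meas` and the last lines of the case `c = 12` change
(the signed areas are positive: there `F = (0, 2 κ (α + β))`, and the proof of `PC_meas` computes the signed areas). -/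
def OPC_stmt : Prop :=
  ∀ (Q : QSys) (M : ℕ → Prop), Q.WF → MOk Q M → ∀ α β : ℕ → ℝ, (∀ g, 0 ≤ α g ∧ 0 ≤ β g) →
    (∃ K : ℝ, ∀ κ : ℝ, 1 < κ → κ ≤ 2 → ∃ z : ℕ → ℝ, (∀ v < Q.nv, |z v| ≤ K) ∧
      (∀ k < Q.m, Q.E z k = 0) ∧
      ∀ r, M r → rval z r * (α (23 + 13 * r) + κ * β (23 + 13 * r)) = α (23 + 13 * r)) →
    ∃ P : ℕ → Pt, ∀ g < nG Q, GiveO P (α g) (β g) (itemOf Q M g)

/-! ## 3. Polynomial time, membership -/

/-- the list of triples of a word -/
noncomputable def sysW' (w : List Bool) : List (ℕ × ℕ × ℕ) :=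
  sysT' (nN0 (sysU w)) (nG (sysU w)) (itemOf (sysU w) (MU w))

/-- ROW oau:OPD (short; from PU, PI; copy of `Pool/Agent/helper50/AUT/PD.lean`). -/
def OPD_stmt : Prop := Dp (fun x _ => code (sysW' x))

/-- ROW oau:OPW (short; from OPD; copy of `Pool/Agent/helper60/AUT/PW.lean`). -/
def OPW_stmt : Prop := IsPolyTime (fun x : List Bool => code (sysW' x))

/-- ROW oau:OMEM (medium; copy of `Pool/Agent/helper89/AUT/MEM.lean`, 599 lines, import it and use its lemmas). Membership. Changes: the condition on the entries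
(`IsOSystem`: three different entries; the list has no repetition; `uniq`: three entries of `s` among those of `t` implies `s = t`), and the formula: the conjunction over
`a` of `(x a ≤ 0) ∨ D = 2 x a` (`D` twice the signed area, `x a = var (2 a)`; `x a ≤ 0` is `not (0 < x a)`). For real `x` put `A = x a` if `x a > 0` and `1`
otherwise; conversely `x a = A`, positive. -/
def OMEM_stmt : Prop := ManyOneReducible OTAU UETR

end Pool.Agent.helper25.OAU
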